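import Pool.Agent.H50.ODG.Targets

/-!
# Row (KSW): exchange of the base points
-/

set_option autoImplicit false

open Pool.Agent.H57.CP Pool.Agent.H39.TO Pool.Agent.H39.OD Pool.Agent.H50.ODG

namespace Pool.Agent.H89.ODG

theorem pf_KSW : T_KSW := by
  intro v v' a b c
  have hG : G3 a b c = G3 b a c := by
    unfold G3
    rw [Set.insert_comm]
  have hp : ({v, v'} : Set H3) = {v', v} := Set.pair_comm v v'
  have hf : fc a b {v, v'} = fc b a {v', v} := by
    unfold fc
    rw [hp, Set.pair_comm a b]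
  unfold KA
  rw [hG, hf, hp]
  have hV : {x | ∃ g ∈ G3 b a c, x = g v ∨ x = g v'} =
      {x | ∃ g ∈ G3 b a c, x = g v' ∨ x = g v} := by
    ext x
    simp only [Set.mem_ofPred_eq, or_comm]
  rw [hV]

end Pool.Agent.H89.ODG
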