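import Pool.Agent.H50.ODG.Targets

/-!
# Row (NR3): normals for given angles
-/

set_option autoImplicit false

open Pool.Agent.H57.CP Pool.Agent.H39.TO Pool.Agent.H39.OD Pool.Agent.H50.ODG

namespace Pool.Agent.H89.ODG

theorem nr3_comm (x y : V4) : mk x y = mk y x := by
  unfold mk
  ring

theorem pf_NR3 : T_NR3 := by
  intro p q r l m n hp hq hr hl hm hn hlm hln hmn hli
  refine ⟨cox p q r ⟨by omega, by omega, by omega⟩, ⟨?_, ?_, ?_, hli⟩, rfl, rfl, rfl⟩
  · intro i
    fin_cases i
    · exact hl
    · exact hm
    · exact hn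
  · intro i j hij _
    fin_cases i <;> fin_cases j
    · exact absurd rfl hij
    · exact hlm
    · exact hln
    · exact (nr3_comm m l).trans hlm
    · exact absurd rfl hij
    · exact hmn
    · exact (nr3_comm n l).trans hln
    · exact (nr3_comm n m).trans hmn
    · exact absurd rfl hij
  · intro i j hij h0
    exfalso
    have hp0 : p ≠ 0 := by omega
    have hq0 : q ≠ 0 := by omega
    have hr0 : r ≠ 0 := by omega
    fin_cases i <;> fin_cases j
    · exact hij rfl
    · exact hp0 h0
    · exact hq0 h0
    · exact hp0 h0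
    · exact hij rfl
    · exact hr0 h0
    · exact hq0 h0
    · exact hr0 h0
    · exact hij rfl

end Pool.Agent.H89.ODG
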